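import Pool.Agent.Lib.MP_688fd0_co.LIN.H51.Peel

/-!
Module START (helper51): an optimal cycle family covers a positive fraction of the vertices.
-/

set_option autoImplicit false

namespace Pool.Agent.Lib.MP_688fd0_co.LIN.H51

open Classical
open Pool.Agent.Lib.MP_688fd0_co.LP

universe u

section
variable {V : Type u} [Fintype V] {G : SimpleGraph V}

lemma cf_eq {F : Finset V} {v w : V} (h : w ∈ cf G F v) : cf G F w = cf G F v := by
  have h1 := mem_cf.1 h
  ext x
  rw [mem_cf, mem_cf]
  exact ⟨fun h2 => h1.trans h2, fun h2 => h1.symm.trans h2⟩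

/-- the components of `F` have in total at most `d` times as many boundary vertices as there are vertices
outside `F` -/
lemma sum_bd_le {d : ℕ} (hd : ∀ v, dg G v ≤ d) (F : Finset V) :
    ∑ A ∈ F.image (cf G F), (bd G A).card ≤ d * (Finset.univ \ F).card := by
  have hsub : ∀ A ∈ F.image (cf G F), bd G A ⊆ (Finset.univ \ F).filter (fun y => y ∈ bd G A) := by
    intro A hA y hy
    refine Finset.mem_filter.2 ⟨?_, hy⟩
    simp only [Finset.mem_sdiff, Finset.mem_univ, true_and]
    intro hyF
    obtain ⟨x0, _, rfl⟩ := Finset.mem_image.1 hA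
    unfold bd at hy
    rw [Finset.mem_filter] at hy
    obtain ⟨_, h1, x, h2, h3⟩ := hy
    exact h1 (mem_cf.2 (Conn.tail (mem_cf.1 h2) h3 (by simpa using hyF)))
  calc ∑ A ∈ F.image (cf G F), (bd G A).card
      ≤ ∑ A ∈ F.image (cf G F), ((Finset.univ \ F).filter (fun y => y ∈ bd G A)).card :=
        Finset.sum_le_sum (fun A hA => Finset.card_le_card (hsub A hA))
    _ = ∑ A ∈ F.image (cf G F), ∑ y ∈ (Finset.univ \ F), if y ∈ bd G A then 1 else 0 := by
        refine Finset.sum_congr rfl (fun A _ => ?_)
        rw [Finset.card_filter]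
    _ = ∑ y ∈ (Finset.univ \ F), ∑ A ∈ F.image (cf G F), if y ∈ bd G A then 1 else 0 := Finset.sum_comm
    _ = ∑ y ∈ (Finset.univ \ F), ((F.image (cf G F)).filter (fun A => y ∈ bd G A)).card := by
        refine Finset.sum_congr rfl (fun A _ => ?_)
        rw [Finset.card_filter]
    _ ≤ ∑ y ∈ (Finset.univ \ F), d := by
        refine Finset.sum_le_sum (fun y _ => ?_)
        refine le_trans ?_ (hd y)
        unfold dg
        refine le_trans (Finset.card_le_card (t := (Finset.univ.filter (fun w => G.Adj y w)).image (cf G F)) ?_)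
          Finset.card_image_le
        intro A hA
        rw [Finset.mem_filter] at hA
        obtain ⟨hA, hyA⟩ := hA
        obtain ⟨x0, _, rfl⟩ := Finset.mem_image.1 hA
        unfold bd at hyA
        rw [Finset.mem_filter] at hyA
        obtain ⟨_, _, x, h2, h3⟩ := hyA
        exact Finset.mem_image.2 ⟨x, by simp [h3.symm], cf_eq h2⟩
    _ = d * (Finset.univ \ F).card := by rw [Finset.sum_const, smul_eq_mul, mul_comm]

lemma card_le_sum (F : Finset V) : F.card ≤ ∑ A ∈ F.image (cf G F), A.card := by
  rw [Finset.card_eq_sum_card_image (cf G F) F]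
  refine Finset.sum_le_sum (fun A _ => Finset.card_le_card ?_)
  intro x hx
  rw [Finset.mem_filter] at hx
  rw [← hx.2]
  exact mem_cf.2 (Conn.refl (by simpa using hx.1))

end

/-- START (Lemma 6) -/
theorem start (hp : PeelStatement.{u}) (hb : BaseStatement.{u}) (ho : OptStatement.{u}) : StartStatement.{u} := by
  intro V _ G H hVT d l s m hd hopt hm1 hm2
  obtain ⟨_, hiso, _⟩ := hb V G hVT
  obtain ⟨_, ho2⟩ := ho V G l
  obtain ⟨_, hcyc, _⟩ := ho2 H hopt
  have hm0 : 1 ≤ m := by
    refine le_trans ?_ hm2
    exact Nat.mul_pos (by omega) (by omega)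
  set R : Finset V := Finset.univ \ cov H with hR
  obtain ⟨Z, hZR, hZ1, hZ2⟩ := hp V G l m R hm0 (by
    intro c hc hcR
    refine hcyc c hc (fun v hv => ?_)
    have := hcR v hv
    simpa [hR] using this)
  set F : Finset V := R \ Z with hF
  -- components are small
  have hsmall : ∀ A ∈ F.image (cf G F), A.card ≤ 2 * s * (bd G A).card := by
    intro A hA
    obtain ⟨x, hx, rfl⟩ := Finset.mem_image.1 hA
    refine hiso _ s ?_
    have h1 := hZ2 x hx
    have h2 : (cf G F x).card < m := h1
    omega
  have h1 : F.card ≤ 2 * s * (d * (Finset.univ \ F).card) := by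
    calc F.card ≤ ∑ A ∈ F.image (cf G F), A.card := card_le_sum F
      _ ≤ ∑ A ∈ F.image (cf G F), 2 * s * (bd G A).card := Finset.sum_le_sum hsmall
      _ = 2 * s * ∑ A ∈ F.image (cf G F), (bd G A).card := by rw [Finset.mul_sum]
      _ ≤ 2 * s * (d * (Finset.univ \ F).card) := Nat.mul_le_mul_left _ (sum_bd_le hd F)
  have h2 : (Finset.univ \ F).card ≤ Z.card + (cov H).card := by
    refine le_trans (Finset.card_le_card ?_) (Finset.card_union_le _ _)
    intro x hx
    simp only [hF, hR, Finset.mem_sdiff, Finset.mem_univ, true_and, Finset.mem_union] at hx ⊢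
    tauto
  have h3 : Fintype.card V = F.card + (Finset.univ \ F).card := by
    have := Finset.card_sdiff_add_card_eq_card (Finset.subset_univ F)
    rw [Finset.card_univ] at this
    omega
  have h4 : R.card ≤ Fintype.card V := by
    rw [← Finset.card_univ]; exact Finset.card_le_card (Finset.subset_univ _)
  set n := Fintype.card V
  set p := (cov H).card
  set z := Z.card
  set t := (Finset.univ \ F).card
  set q := 2 * s * d + 1 with hq
  have h5 : n ≤ q * (z + p) := by
    calc n = F.card + t := h3
      _ ≤ 2 * s * (d * t) + t := Nat.add_le_add_right h1 _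
      _ = q * t := by rw [hq]; ring
      _ ≤ q * (z + p) := Nat.mul_le_mul_left _ h2
  have h6 : 2 * q * z ≤ n := by
    have h7 : (l + 1) * (2 * q * z) ≤ (l + 1) * n := by
      calc (l + 1) * (2 * q * z) = (2 * (l + 1) * q) * z := by ring
        _ ≤ m * z := Nat.mul_le_mul_right _ hm2
        _ ≤ (l + 1) * R.card := hZ1
        _ ≤ (l + 1) * n := Nat.mul_le_mul_left _ h4
    exact Nat.le_of_mul_le_mul_left h7 (by omega)
  nlinarith

end Pool.Agent.Lib.MP_688fd0_co.LIN.H51
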