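import Pool.Agent.Lib.MP_688fd0_co.LIN.Iface
import Pool.Agent.Lib.MP_688fd0_co.LP.ConnBasic

/-!
Module PEEL (helper51): deleting few vertices leaves only small components in a graph without long cycles.
-/

set_option autoImplicit false

namespace Pool.Agent.Lib.MP_688fd0_co.LIN.H51

open Classical
open Pool.Agent.Lib.MP_688fd0_co.LP

universe u

section
variable {V : Type u} [Fintype V] {G : SimpleGraph V}

/-- the component of `v` inside `F`, as a finset -/
noncomputable def cf (G : SimpleGraph V) (F : Finset V) (v : V) : Finset V :=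
  Finset.univ.filter (fun w => Conn G (↑F) v w)

lemma mem_cf {F : Finset V} {v w : V} : w ∈ cf G F v ↔ Conn G (↑F) v w := by
  simp [cf]

/-- state of the search: a path `L` (in reversed order) and a connected rest `M` -/
structure St (G : SimpleGraph V) (m : ℕ) (F : Finset V) (L : List V) (M : Finset V) : Prop where
  chain : L.IsChain G.Adj
  nodup : L.Nodup
  LF : ∀ v ∈ L, v ∈ F
  MF : M ⊆ F
  disj : ∀ v ∈ L, v ∉ M
  card : m ≤ M.card
  nbr : ∀ x ∈ M, ∀ y ∈ F, G.Adj x y → y ∈ M ∨ y ∈ L
  conn : ∀ x ∈ M, ∀ y ∈ M, Conn G (↑M) x y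
  head : ∀ a, L.head? = some a → ∃ x ∈ M, G.Adj a x

/-- outcome of the search -/
structure Out (G : SimpleGraph V) (l m : ℕ) (F Z M : Finset V) : Prop where
  ZF : Z ⊆ F
  MF : M ⊆ F
  disj : ∀ v ∈ Z, v ∉ M
  Zc : Z.card ≤ l + 1
  card : m ≤ (Z ∪ M).card
  small : ∀ v ∈ M, (cf G M v).card < m
  nbr : ∀ x ∈ M, ∀ y ∈ F, G.Adj x y → y ∈ M ∨ y ∈ Z

/-- a component of `M - v` is adjacent to `v` -/
lemma exit_to {M : Finset V} {v x : V} (hconn : ∀ x ∈ M, ∀ y ∈ M, Conn G (↑M) x y) (hv : v ∈ M)
    (hx : x ∈ M.erase v) : ∃ a, Conn G (↑(M.erase v)) x a ∧ G.Adj a v := by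
  have hxM : x ∈ M := Finset.mem_of_mem_erase hx
  have hc := hconn x hxM v hv
  obtain ⟨a, b, _, h2, h3, h4, h5⟩ := hc.exit (W := comp G (↑(M.erase v)) x)
    (self_mem_comp (Finset.mem_coe.2 hx)) (by
      intro h
      have := Conn.right h
      simp at this)
  refine ⟨a, h3, ?_⟩
  by_cases hbv : b = v
  · rw [hbv] at h5; exact h5
  · exfalso
    apply h4
    have hbM : b ∈ M := by simpa using Conn.right h2
    exact Conn.tail h3 h5 (by simp [hbv, hbM])

lemma search {l m : ℕ} {F : Finset V} (hm : 1 ≤ m)
    (hcyc : ∀ c, Cyc G c → (∀ v ∈ c, v ∈ F) → c.length ≤ l) :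
    ∀ (k : ℕ) (L : List V) (M : Finset V), M.card = k → St G m F L M → ∃ Z M', Out G l m F Z M' := by
  intro k
  induction k using Nat.strong_induction_on with
  | _ k ih =>
  intro L M hk hS
  have hMne : M.Nonempty := by
    rw [← Finset.card_pos]
    have := hS.card
    omega
  have hv : ∃ v ∈ M, ∀ a, L.head? = some a → G.Adj a v := by
    cases hL : L.head? with
    | none =>
      obtain ⟨v, hv⟩ := hMne
      exact ⟨v, hv, by simp⟩
    | some a =>
      obtain ⟨v, hv, ha⟩ := hS.head a hL
      refine ⟨v, hv, ?_⟩
      intro a' ha'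
      simp only [Option.some.injEq] at ha'
      subst ha'
      exact ha
  obtain ⟨v, hvM, hva⟩ := hv
  have hvF : v ∈ F := hS.MF hvM
  have hvL : v ∉ L := fun h => hS.disj v h hvM
  have hch1 : (v :: L).IsChain G.Adj := by
    cases L with
    | nil => simp
    | cons a L =>
      refine List.isChain_cons_cons.2 ⟨?_, hS.chain⟩
      exact (hva a (by simp)).symm
  have hnd1 : (v :: L).Nodup := List.nodup_cons.2 ⟨hvL, hS.nodup⟩
  by_cases hA : ∃ x ∈ M.erase v, m ≤ (cf G (M.erase v) x).card
  · obtain ⟨x, hx, hxm⟩ := hA
    have hsub : cf G (M.erase v) x ⊆ M.erase v := by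
      intro w hw
      exact Finset.mem_coe.1 (Conn.right (mem_cf.1 hw))
    have hlt : (cf G (M.erase v) x).card < k := by
      have h1 := Finset.card_le_card hsub
      have h2 := Finset.card_erase_lt_of_mem hvM
      omega
    refine ih _ hlt (v :: L) (cf G (M.erase v) x) rfl ?_
    refine ⟨hch1, hnd1, ?_, ?_, ?_, hxm, ?_, ?_, ?_⟩
    · intro w hw
      rcases List.mem_cons.1 hw with rfl | hw
      · exact hvF
      · exact hS.LF w hw
    · exact fun w hw => hS.MF (Finset.mem_of_mem_erase (hsub hw))
    · intro w hw hw'
      have h1 := hsub hw'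
      rcases List.mem_cons.1 hw with rfl | hw
      · simp at h1
      · exact hS.disj w hw (Finset.mem_of_mem_erase h1)
    · intro y hy z hz hyz
      have hyM : y ∈ M := Finset.mem_of_mem_erase (hsub hy)
      rcases hS.nbr y hyM z hz hyz with h | h
      · by_cases hzv : z = v
        · right; simp [hzv]
        · left
          refine mem_cf.2 (Conn.tail (mem_cf.1 hy) hyz ?_)
          simp [hzv, h]
      · right; exact List.mem_cons_of_mem _ h
    · intro y hy z hz
      have h1 := mem_cf.1 hy
      have h2 := mem_cf.1 hz
      have h3 : Conn G (↑(M.erase v)) y z := h1.symm.trans h2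
      refine h3.in_superset ?_
      intro w hw
      have : w ∈ cf G (M.erase v) x := mem_cf.2 (h1.trans hw)
      simpa using this
    · intro a ha
      simp only [List.head?_cons, Option.some.injEq] at ha
      subst ha
      obtain ⟨a, ha1, ha2⟩ := exit_to hS.conn hvM hx
      exact ⟨a, mem_cf.2 ha1, ha2.symm⟩
  · push Not at hA
    refine ⟨((v :: L).take (l + 1)).toFinset, M.erase v, ?_⟩
    refine ⟨?_, ?_, ?_, ?_, ?_, hA, ?_⟩
    · intro w hw
      have hw' : w ∈ v :: L := List.mem_of_mem_take (List.mem_toFinset.1 hw)
      rcases List.mem_cons.1 hw' with rfl | hw'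
      · exact hvF
      · exact hS.LF w hw'
    · exact fun w hw => hS.MF (Finset.mem_of_mem_erase hw)
    · intro w hw h1
      have hw' : w ∈ v :: L := List.mem_of_mem_take (List.mem_toFinset.1 hw)
      rcases List.mem_cons.1 hw' with rfl | hw'
      · simp at h1
      · exact hS.disj w hw' (Finset.mem_of_mem_erase h1)
    · refine (List.toFinset_card_le _).trans ?_
      simp
    · refine hS.card.trans (Finset.card_le_card ?_)
      intro w hw
      by_cases hwv : w = v
      · subst hwv
        simp
      · simp [hwv, hw]
    · intro x hx y hy hxy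
      rcases hS.nbr x (Finset.mem_of_mem_erase hx) y hy hxy with h | h
      · by_cases hyv : y = v
        · subst hyv
          right; simp
        · left; simp [hyv, h]
      · right
        obtain ⟨A, B, hAB⟩ := List.append_of_mem (List.mem_cons_of_mem v h)
        by_cases hlen : A.length < l + 1
        · rw [List.mem_toFinset, hAB]
          rw [List.take_append]
          apply List.mem_append_right
          have : ∃ j, l + 1 - A.length = j + 1 := ⟨l - A.length, by omega⟩
          obtain ⟨j, hj⟩ := this
          rw [hj]
          simp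
        · exfalso
          obtain ⟨a, ha1, ha2⟩ := exit_to hS.conn hvM hx
          obtain ⟨P, hP, hPM⟩ := ha1.exists_path
          have hAne : A ≠ [] := by
            intro h
            rw [h] at hlen
            simp at hlen
          obtain ⟨A', hA'⟩ : ∃ A', A = v :: A' := by
            cases A with
            | nil => exact absurd rfl hAne
            | cons c A' =>
              simp only [List.cons_append, List.cons.injEq] at hAB
              exact ⟨A', by rw [hAB.1]⟩
          have hsplit : v :: L = (A ++ [y]) ++ B := by rw [hAB]; simp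
          have hc1 : (A ++ [y]).IsChain G.Adj := by
            rw [hsplit] at hch1
            exact hch1.left_of_append
          have hn1 : (A ++ [y]).Nodup := by
            rw [hsplit] at hnd1
            exact (List.nodup_append.1 hnd1).1
          have hmem1 : ∀ w ∈ A ++ [y], w ∈ v :: L := by
            intro w hw
            rw [hsplit]
            exact List.mem_append_left _ hw
          have hC : Cyc G ((A ++ [y]) ++ P) := by
            refine ⟨⟨by simp, ?_, ?_⟩, ?_, v, a, ?_, ?_, ha2⟩
            · refine List.isChain_append.2 ⟨hc1, hP.1.2.1, ?_⟩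
              intro p hp q hq
              rw [hP.2.1] at hq
              simp only [List.getLast?_append, List.getLast?_singleton, Option.some_or,
                Option.mem_def, Option.some.injEq] at hp hq
              subst hp hq
              exact hxy.symm
            · rw [List.nodup_append]
              refine ⟨hn1, hP.1.2.2, ?_⟩
              intro p hp q hq hpq
              subst hpq
              have h1 := hmem1 p hp
              have h2 := hPM p hq
              simp only [Finset.coe_erase, Set.mem_sdiff, Finset.mem_coe, Set.mem_singleton_iff] at h2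
              rcases List.mem_cons.1 h1 with h1 | h1
              · exact h2.2 h1
              · exact hS.disj p h1 h2.1
            · have h1 : 1 ≤ P.length := List.length_pos_iff.2 hP.1.1
              simp only [List.length_append, List.length_singleton]
              omega
            · rw [hA']; simp
            · rw [List.getLast?_append, hP.2.2]; simp
          have hlen2 := hcyc _ hC (by
            intro w hw
            rcases List.mem_append.1 hw with hw | hw
            · rcases List.mem_cons.1 (hmem1 w hw) with rfl | hw'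
              · exact hvF
              · exact hS.LF w hw'
            · have h2 := hPM w hw
              simp only [Finset.coe_erase, Set.mem_sdiff, Finset.mem_coe, Set.mem_singleton_iff] at h2
              exact hS.MF h2.1)
          simp only [List.length_append, List.length_singleton] at hlen2
          omega

lemma peel_aux {l m : ℕ} (hm : 1 ≤ m) : ∀ (k : ℕ) (F : Finset V), F.card = k →
    (∀ c, Cyc G c → (∀ v ∈ c, v ∈ F) → c.length ≤ l) →
    ∃ Z ⊆ F, m * Z.card ≤ (l + 1) * F.card ∧ ∀ v ∈ F \ Z, (cf G (F \ Z) v).card < m := by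
  intro k
  induction k using Nat.strong_induction_on with
  | _ k ih =>
  intro F hk hcyc
  by_cases hA : ∀ v ∈ F, (cf G F v).card < m
  · refine ⟨∅, by simp, by simp, ?_⟩
    rw [Finset.sdiff_empty]
    exact hA
  · push Not at hA
    obtain ⟨v, hv, hvm⟩ := hA
    have hS : St G m F [] (cf G F v) := by
      refine ⟨by simp, by simp, by simp, ?_, by simp, hvm, ?_, ?_, by simp⟩
      · intro w hw
        simpa using Conn.right (mem_cf.1 hw)
      · intro x hx y hy hxy
        left
        exact mem_cf.2 (Conn.tail (mem_cf.1 hx) hxy (by simpa using hy))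
      · intro y hy z hz
        have h1 := mem_cf.1 hy
        have h2 := mem_cf.1 hz
        have h3 : Conn G (↑F) y z := h1.symm.trans h2
        refine h3.in_superset ?_
        intro w hw
        have : w ∈ cf G F v := mem_cf.2 (h1.trans hw)
        simpa using this
    obtain ⟨Z1, M, hO⟩ := search hm hcyc _ _ _ rfl hS
    have hsub : Z1 ∪ M ⊆ F := Finset.union_subset hO.ZF hO.MF
    have hcard : (F \ (Z1 ∪ M)).card + (Z1 ∪ M).card = F.card := Finset.card_sdiff_add_card_eq_card hsub
    have hlt : (F \ (Z1 ∪ M)).card < k := by
      have := hO.card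
      omega
    obtain ⟨Z2, hZ2, hZ2c, hZ2s⟩ := ih _ hlt (F \ (Z1 ∪ M)) rfl
      (fun c hc hcF => hcyc c hc (fun w hw => (Finset.mem_sdiff.1 (hcF w hw)).1))
    refine ⟨Z1 ∪ Z2, ?_, ?_, ?_⟩
    · exact Finset.union_subset hO.ZF (hZ2.trans Finset.sdiff_subset)
    · have h1 : (Z1 ∪ Z2).card ≤ Z1.card + Z2.card := Finset.card_union_le _ _
      calc m * (Z1 ∪ Z2).card ≤ m * (Z1.card + Z2.card) := Nat.mul_le_mul_left _ h1
        _ = m * Z1.card + m * Z2.card := by ring
        _ ≤ (Z1 ∪ M).card * (l + 1) + (l + 1) * (F \ (Z1 ∪ M)).card :=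
            Nat.add_le_add (Nat.mul_le_mul hO.card hO.Zc) hZ2c
        _ = (l + 1) * F.card := by rw [← hcard]; ring
    · -- components of the rest
      have hset : ∀ w, w ∈ F \ (Z1 ∪ Z2) ↔ (w ∈ M ∨ w ∈ (F \ (Z1 ∪ M)) \ Z2) := by
        intro w
        simp only [Finset.mem_sdiff, Finset.mem_union]
        constructor
        · rintro ⟨h1, h2⟩
          push Not at h2
          by_cases hwM : w ∈ M
          · exact Or.inl hwM
          · exact Or.inr ⟨⟨h1, by tauto⟩, h2.2⟩
        · rintro (h | ⟨⟨h1, h2⟩, h3⟩)
          · refine ⟨hO.MF h, ?_⟩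
            rintro (h' | h')
            · exact hO.disj w h' h
            · have := Finset.mem_sdiff.1 (hZ2 h')
              apply this.2
              simp [h]
          · exact ⟨h1, by tauto⟩
      have hnoe : ∀ x ∈ M, ∀ y ∈ (F \ (Z1 ∪ M)) \ Z2, ¬ G.Adj x y := by
        intro x hx y hy hxy
        simp only [Finset.mem_sdiff, Finset.mem_union] at hy
        rcases hO.nbr x hx y hy.1.1 hxy with h | h <;> tauto
      intro w hw
      rcases (hset w).1 hw with h | h
      · refine lt_of_le_of_lt (Finset.card_le_card ?_) (hO.small w h)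
        intro z hz
        have hz1 := mem_cf.1 hz
        have hz2 : comp G (↑(F \ (Z1 ∪ Z2))) w ⊆ (↑M : Set V) := by
          refine comp_sub_of_closed ?_ h
          intro p hp q hq hpq
          have hq' : q ∈ F \ (Z1 ∪ Z2) := by simpa using hq
          rcases (hset q).1 hq' with h' | h'
          · exact h'
          · exact absurd hpq (hnoe p hp q h')
        exact mem_cf.2 (hz1.in_superset hz2)
      · refine lt_of_le_of_lt (Finset.card_le_card ?_) (hZ2s w h)
        intro z hz
        have hz1 := mem_cf.1 hz
        have hz2 : comp G (↑(F \ (Z1 ∪ Z2))) w ⊆ (↑((F \ (Z1 ∪ M)) \ Z2) : Set V) := by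
          refine comp_sub_of_closed ?_ (by exact_mod_cast h)
          intro p hp q hq hpq
          have hq' : q ∈ F \ (Z1 ∪ Z2) := by simpa using hq
          rcases (hset q).1 hq' with h' | h'
          · exact absurd hpq.symm (hnoe q h' p (by exact_mod_cast hp))
          · exact_mod_cast h'
        exact mem_cf.2 (hz1.in_superset hz2)

end

/-- PEEL -/
theorem peel : PeelStatement.{u} := by
  intro V _ G l m F hm hcyc
  exact peel_aux hm _ F rfl hcyc

end Pool.Agent.Lib.MP_688fd0_co.LIN.H51
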